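import Pool.Agent.Q184.BLK.Proj

set_option autoImplicit false

/-!
# Kakeya maximal functions of Brascamp–Lieb products
-/

open MeasureTheory Set Filter Topology ENNReal NNReal Metric

namespace Pool.Agent.Q184.BLK

open Pool.Agent.TH225.CK

/-- The Kakeya maximal function. -/
noncomputable def kakeyaMax {n : ℕ} (δ : ℝ) (f : E n → ℝ) (e : E n) : ℝ≥0∞ :=
  ⨆ a : E n, (volume (tube δ e a))⁻¹ * ∫⁻ y in tube δ e a, ‖f y‖ₑ

/-- The co-monotone functions. -/
def Comonotone {d : ℕ} (g : (Fin d → ℝ) → ℝ) : Prop :=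
  ∃ (β : Fin d → ℕ) (u : ℕ → (Fin d → ℝ) → ℝ),
    (∀ k, Fintype.card {i // β i = k} ≤ 2) ∧ (∀ k, Measurable (u k)) ∧
    (∀ k x y, (∀ i, β i = k → x i = y i) → u k x = u k y) ∧
    ∀ x y, (∀ i, β i = 0 → x i = y i) → (∀ k, k ≠ 0 → u k y ≤ u k x) → |g x| ≤ |g y|

/-- The Brascamp–Lieb inequality. -/
def BrascampLieb {n k : ℕ} {d : Fin k → ℕ} (A : ∀ i, Fin (d i) → E n) (p : Fin k → ℝ)
    (B : ℝ≥0∞) : Prop :=
  ∀ h : ∀ i, (Fin (d i) → ℝ) → ℝ≥0∞, (∀ i, Measurable (h i)) →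
    ∫⁻ x : E n, ∏ i, h i (co (A i) x) ^ p i ≤ B * ∏ i, (∫⁻ y, h i y) ^ p i

/-- The estimate on the cube, for all dimensions up to `N`. -/
theorem cube (N : ℕ) : ∃ (C : ℝ) (c : ℕ), 1 ≤ C ∧ ∀ d : ℕ, 1 ≤ d → d ≤ N →
    ∀ δ : ℝ, 0 < δ → δ < 1 → ∀ β : Fin d → ℕ, (∀ k, Fintype.card {i // β i = k} ≤ 2) →
    ∀ G : (Fin d → ℝ) → ℝ≥0∞, Measurable G → CoMono β G →
    ∫⁻ v, NN (3 * δ) G v ^ d ∂(cu (Fin d)) ≤
      ENNReal.ofReal (C * (1 + Real.log (1 / δ)) ^ c) * ∫⁻ y, G y ^ d := by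
  obtain ⟨C, c, hC, hmain⟩ := main_ind N
  refine ⟨C + 2 ^ N, c, ?_, ?_⟩
  · have : (1 : ℝ) ≤ 2 ^ N := one_le_pow₀ (by norm_num)
    linarith
  intro d hd1 hdN δ hδ hδ1 β hβ G hGm hCo
  have hlog : 0 ≤ Real.log (1 / δ) := Real.log_nonneg (by rw [le_div_iff₀ hδ]; linarith)
  set I := ∫⁻ y, G y ^ d with hI
  rcases le_or_gt (3 * δ) 1 with h3 | h3
  · refine (hmain d hd1 hdN (Fin d) (Fintype.card_fin _) β hβ (3 * δ)
      (by positivity) h3 G hGm hCo).trans ?_
    rw [← hI]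
    gcongr ?_ * _
    apply ENNReal.ofReal_le_ofReal
    have h4 : Real.log (1 / (3 * δ)) ≤ Real.log (1 / δ) := by
      apply Real.log_le_log (by positivity)
      apply one_div_le_one_div_of_le hδ
      linarith
    have h5 : 0 ≤ Real.log (1 / (3 * δ)) :=
      Real.log_nonneg (by rw [le_div_iff₀ (by positivity)]; linarith)
    gcongr
    have : (0 : ℝ) < 2 ^ N := by positivity
    linarith
  · calc ∫⁻ v, NN (3 * δ) G v ^ d ∂(cu (Fin d))
        ≤ ∫⁻ _, I ∂(cu (Fin d)) := by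
          apply lintegral_mono
          intro v
          refine (NN_sq_le (by positivity) hGm v (by omega)).trans ?_
          rw [← hI]
          calc ((ENNReal.ofReal (2 * (3 * δ)))⁻¹) ^ Fintype.card (Fin d) * I
              ≤ 1 ^ Fintype.card (Fin d) * I := by
                gcongr
                rw [ENNReal.inv_le_one, ← ENNReal.ofReal_one]
                exact ENNReal.ofReal_le_ofReal (by linarith)
            _ = I := by rw [one_pow, one_mul]
      _ = ENNReal.ofReal (2 ^ d) * I := by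
          rw [lintegral_const, cu_univ, Fintype.card_fin, mul_comm,
            ENNReal.ofReal_pow (by norm_num), ENNReal.ofReal_ofNat]
      _ ≤ _ := by
          gcongr ?_ * _
          apply ENNReal.ofReal_le_ofReal
          have h5 : (1 : ℝ) ≤ (1 + Real.log (1 / δ)) ^ c := one_le_pow₀ (by linarith)
          have h6 : (2 : ℝ) ^ d ≤ 2 ^ N := pow_le_pow_right₀ (by norm_num) hdN
          have h7 : (0 : ℝ) < 2 ^ N := by positivity
          nlinarith

theorem coMono_rpow {d : ℕ} {g : (Fin d → ℝ) → ℝ} (hg : Comonotone g) {r : ℝ} (hr : 0 ≤ r) :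
    ∃ β : Fin d → ℕ, (∀ k, Fintype.card {i // β i = k} ≤ 2) ∧ CoMono β (fun y => ‖g y‖ₑ ^ r) := by
  obtain ⟨β, u, hβ, hum, hud, hu⟩ := hg
  refine ⟨β, hβ, u, hum, hud, ?_⟩
  intro x y h0 h
  have h1 := hu x y h0 h
  apply ENNReal.rpow_le_rpow _ hr
  simp only [← ofReal_norm, Real.norm_eq_abs]
  exact ENNReal.ofReal_le_ofReal h1

/-- The pointwise bound. -/
theorem pointwise {m : ℕ} {c0 : ℝ} (hc0 : 0 < c0)
    (hvol : ∀ (δ : ℝ) (e a : E (m + 1)), 0 < δ → ‖e‖ = 1 →
      ENNReal.ofReal (c0 * δ ^ m) ≤ volume (tube δ e a))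
    {k : ℕ} {d : Fin k → ℕ} (hd : ∀ i, 0 < d i) {A : ∀ i, Fin (d i) → E (m + 1)}
    (hA : ∀ i, Orthonormal ℝ (A i)) {p : Fin k → ℝ} (hp : ∀ i, 0 < p i)
    (hpd : ∑ i, p i * d i = (m + 1 : ℕ)) {g : ∀ i, (Fin (d i) → ℝ) → ℝ}
    (hg : ∀ i, Measurable (g i)) {δ : ℝ} (hδ : 0 < δ) (hδ1 : δ < 1) {e : E (m + 1)}
    (he : ‖e‖ = 1) {t : ℝ} (ht : t ∈ Icc (1 / 2 : ℝ) 1) :
    kakeyaMax δ (fun x => ∏ i, g i (co (A i) x)) e ^ (m + 1) ≤
      ENNReal.ofReal ((2 * 6 ^ (m + 1) / c0) ^ (m + 1)) *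
        ∏ i, (NN (3 * δ) (fun y => ‖g i y‖ₑ ^ ((m + 1 : ℕ) / (p i * d i) : ℝ))
          (co (A i) (t • e)) ^ d i) ^ p i := by
  set K : ℝ := 2 * 6 ^ (m + 1) / c0 with hK
  have hK0 : 0 < K := by positivity
  have hpdi : ∀ i, 0 < p i * d i := fun i => by
    have := hd i
    have := hp i
    positivity
  have hn : (0 : ℝ) < (m + 1 : ℕ) := by positivity
  set q : Fin k → ℝ := fun i => p i * d i / (m + 1 : ℕ) with hq
  have hq0 : ∀ i, 0 < q i := fun i => div_pos (hpdi i) hn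
  have hqs : ∑ i, q i = 1 := by
    rw [hq, ← Finset.sum_div, hpd, div_self hn.ne']
  set G : ∀ i, (Fin (d i) → ℝ) → ℝ≥0∞ := fun i y => ‖g i y‖ₑ ^ ((m + 1 : ℕ) / (p i * d i) : ℝ)
    with hG
  have hGm : ∀ i, Measurable (G i) := fun i => (hg i).enorm.pow_const _
  have hgG : ∀ i y, ‖g i y‖ₑ = G i y ^ q i := by
    intro i y
    simp only [hG, hq]
    rw [← ENNReal.rpow_mul]
    have : ((m + 1 : ℕ) / (p i * d i) : ℝ) * (p i * d i / (m + 1 : ℕ)) = 1 := by
      rw [div_mul_div_comm, mul_comm ((m + 1 : ℕ) : ℝ) (p i * d i),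
        div_self (mul_ne_zero (hpdi i).ne' hn.ne')]
    rw [this, ENNReal.rpow_one]
  have h1 : kakeyaMax δ (fun x => ∏ i, g i (co (A i) x)) e ≤
      ∏ i, (ENNReal.ofReal K * NN (3 * δ) (G i) (co (A i) (t • e))) ^ q i := by
    apply iSup_le
    intro a
    have hV : (volume (tube δ e a))⁻¹ ≤ ENNReal.ofReal ((c0 * δ ^ m)⁻¹) := by
      rw [ENNReal.ofReal_inv_of_pos (by positivity)]
      exact ENNReal.inv_le_inv.2 (hvol δ e a hδ he)
    have h2 : ∫⁻ y in tube δ e a, ‖∏ i, g i (co (A i) y)‖ₑ ≤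
        ∏ i, (∫⁻ y in tube δ e a, G i (co (A i) y)) ^ q i := by
      have h3 : ∀ y, ‖∏ i, g i (co (A i) y)‖ₑ = ∏ i, G i (co (A i) y) ^ q i := by
        intro y
        rw [← ofReal_norm, norm_prod, ENNReal.ofReal_prod_of_nonneg (fun _ _ => norm_nonneg _)]
        apply Finset.prod_congr rfl
        intro i _
        rw [ofReal_norm, hgG]
      simp only [h3]
      exact ENNReal.lintegral_prod_norm_pow_le Finset.univ
        (fun i _ => ((hGm i).comp (measurable_co (A i))).aemeasurable) hqs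
        (fun i _ => (hq0 i).le)
    have h4 : ∀ i, ENNReal.ofReal ((c0 * δ ^ m)⁻¹) * ∫⁻ y in tube δ e a, G i (co (A i) y) ≤
        ENNReal.ofReal K * NN (3 * δ) (G i) (co (A i) (t • e)) := by
      intro i
      have h5 := int_tube_co hδ hδ1.le (a := a) he (hA i) (hGm i) ht
      calc ENNReal.ofReal ((c0 * δ ^ m)⁻¹) * ∫⁻ y in tube δ e a, G i (co (A i) y)
          ≤ ENNReal.ofReal ((c0 * δ ^ m)⁻¹) * (ENNReal.ofReal (2 * (6 * δ) ^ (m + 1) / δ) *
            NN (3 * δ) (G i) (co (A i) (t • e))) := by gcongr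
        _ = _ := by
          rw [← mul_assoc, ← ENNReal.ofReal_mul (by positivity)]
          congr 2
          rw [hK]
          field_simp
          ring
    set X := ENNReal.ofReal ((c0 * δ ^ m)⁻¹) with hX
    have hX0 : 0 < (c0 * δ ^ m)⁻¹ := by positivity
    have h6 : X = ∏ i, X ^ q i := by
      have h7 : (c0 * δ ^ m)⁻¹ = ∏ i, ((c0 * δ ^ m)⁻¹) ^ q i := by
        rw [← Real.rpow_sum_of_pos hX0, hqs, Real.rpow_one]
      calc X = ENNReal.ofReal (∏ i, ((c0 * δ ^ m)⁻¹) ^ q i) := by rw [← h7]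
        _ = ∏ i, X ^ q i := by
          rw [ENNReal.ofReal_prod_of_nonneg (fun _ _ => by positivity)]
          apply Finset.prod_congr rfl
          intro i _
          rw [hX, ENNReal.ofReal_rpow_of_pos hX0]
    calc (volume (tube δ e a))⁻¹ * ∫⁻ y in tube δ e a, ‖∏ i, g i (co (A i) y)‖ₑ
        ≤ X * ∏ i, (∫⁻ y in tube δ e a, G i (co (A i) y)) ^ q i := mul_le_mul' hV h2
      _ = ∏ i, (X * ∫⁻ y in tube δ e a, G i (co (A i) y)) ^ q i := by
        conv_lhs => rw [h6]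
        rw [← Finset.prod_mul_distrib]
        apply Finset.prod_congr rfl
        intro i _
        rw [ENNReal.mul_rpow_of_nonneg _ _ (hq0 i).le]
      _ ≤ _ := by
        apply Finset.prod_le_prod' 
        intro i _
        exact ENNReal.rpow_le_rpow (h4 i) (hq0 i).le
  calc kakeyaMax δ (fun x => ∏ i, g i (co (A i) x)) e ^ (m + 1)
      ≤ (∏ i, (ENNReal.ofReal K * NN (3 * δ) (G i) (co (A i) (t • e))) ^ q i) ^ (m + 1) := by
        gcongr
    _ = ∏ i, (ENNReal.ofReal K ^ (p i * d i) *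
          (NN (3 * δ) (G i) (co (A i) (t • e)) ^ d i) ^ p i) := by
        rw [← Finset.prod_pow]
        apply Finset.prod_congr rfl
        intro i _
        rw [← ENNReal.rpow_natCast, ← ENNReal.rpow_mul]
        have h8 : q i * ((m + 1 : ℕ) : ℝ) = p i * d i := by
          simp only [hq]
          field_simp
        rw [h8, ENNReal.mul_rpow_of_nonneg _ _ (hpdi i).le]
        congr 1
        rw [← ENNReal.rpow_natCast, ← ENNReal.rpow_mul, mul_comm (d i : ℝ)]
    _ = _ := by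
        rw [Finset.prod_mul_distrib]
        congr 1
        have h9 : K ^ (m + 1) = ∏ i, K ^ (p i * d i) := by
          rw [← Real.rpow_sum_of_pos hK0, hpd, Real.rpow_natCast]
        rw [h9, ENNReal.ofReal_prod_of_nonneg (fun _ _ => by positivity)]
        apply Finset.prod_congr rfl
        intro i _
        rw [ENNReal.ofReal_rpow_of_pos hK0]

/-- **The Kakeya maximal estimate for Brascamp–Lieb products.** -/
theorem main_BL (m : ℕ) : ∃ (C : ℝ) (c : ℕ), 0 < C ∧
    ∀ (k : ℕ) (d : Fin k → ℕ) (A : ∀ i, Fin (d i) → E (m + 1)) (p : Fin k → ℝ) (B : ℝ≥0∞)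
      (g : ∀ i, (Fin (d i) → ℝ) → ℝ) (δ : ℝ), (∀ i, 0 < d i) → (∀ i, Orthonormal ℝ (A i)) →
      (∀ i, 0 < p i) → ∑ i, p i * d i = (m + 1 : ℕ) → BrascampLieb A p B →
      (∀ i, Measurable (g i)) → (∀ i, Comonotone (g i)) → 0 < δ → δ < 1 →
      ∫⁻ e : sphere (0 : E (m + 1)) 1, kakeyaMax δ (fun x => ∏ i, g i (co (A i) x)) e ^ (m + 1)
          ∂(volume : Measure (E (m + 1))).toSphere
        ≤ ENNReal.ofReal (C * (1 + Real.log (1 / δ)) ^ c) *
          (B * ∏ i, (∫⁻ y, ‖g i y‖ₑ ^ ((m + 1 : ℕ) / p i : ℝ)) ^ p i) := by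
  obtain ⟨C, c, hC, hcube⟩ := cube (m + 1)
  obtain ⟨c0, hc0, hvol⟩ := Pool.Agent.H742R2.Kk.volume_tube m
  set K : ℝ := (2 * 6 ^ (m + 1) / c0) ^ (m + 1) with hK
  have hK0 : 0 < K := by positivity
  refine ⟨2 ^ m * (2 * K) * C ^ (m + 1), c * (m + 1), by positivity, ?_⟩
  intro k d A p B g δ hd hA hp hpd hBL hg hgc hδ hδ1
  have hlog : 0 ≤ Real.log (1 / δ) := Real.log_nonneg (by rw [le_div_iff₀ hδ]; linarith)
  set L := 1 + Real.log (1 / δ) with hL
  have hL1 : 1 ≤ L := by linarith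
  have hdm : ∀ i, d i ≤ m + 1 := by
    intro i
    have := (hA i).linearIndependent.fintype_card_le_finrank
    simpa using this
  set G : ∀ i, (Fin (d i) → ℝ) → ℝ≥0∞ := fun i y => ‖g i y‖ₑ ^ ((m + 1 : ℕ) / (p i * d i) : ℝ)
    with hG
  have hGm : ∀ i, Measurable (G i) := fun i => (hg i).enorm.pow_const _
  set N : ∀ i, (Fin (d i) → ℝ) → ℝ≥0∞ := fun i => NN (3 * δ) (G i) with hN
  have hNm : ∀ i, Measurable (N i) := fun i => measurable_NN (by positivity) (hGm i)
  set I : Fin k → ℝ≥0∞ := fun i => ∫⁻ y, ‖g i y‖ₑ ^ ((m + 1 : ℕ) / p i : ℝ) with hI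
  set D : ℝ := C * L ^ c with hD
  have hD1 : 1 ≤ D := by
    have : 1 ≤ L ^ c := one_le_pow₀ hL1
    nlinarith
  have hNi : ∀ i, ∫⁻ v in box (Fin (d i)) 1, N i v ^ d i ≤ ENNReal.ofReal D * I i := by
    intro i
    obtain ⟨β, hβ, hCo⟩ := coMono_rpow (hgc i) (r := (m + 1 : ℕ) / (p i * d i))
      (by have := hp i; positivity)
    have h1 := hcube (d i) (hd i) (hdm i) δ hδ hδ1 β hβ (G i) (hGm i) hCo
    rw [cu_eq] at h1
    refine h1.trans (le_of_eq ?_)
    congr 1
    apply lintegral_congr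
    intro y
    simp only [hG]
    rw [← ENNReal.rpow_natCast, ← ENNReal.rpow_mul]
    congr 1
    have h2 := hd i
    have h3 := (hp i).ne'
    field_simp
  -- the shell
  have hcoN : ∀ i, Measurable (fun x : E (m + 1) => (N i (co (A i) x) ^ d i) ^ p i) := fun i =>
    (((hNm i).comp (measurable_co (A i))).pow_const _).pow_const _
  have hprod : Measurable (fun x : E (m + 1) => ∏ i, (N i (co (A i) x) ^ d i) ^ p i) :=
    Finset.measurable_prod _ (fun i _ => hcoN i)
  set g' : E (m + 1) → ℝ≥0∞ :=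
    fun x => 2 * ENNReal.ofReal K * ∏ i, (N i (co (A i) x) ^ d i) ^ p i with hg'
  have hgm : Measurable g' := hprod.const_mul _
  have hhalf : ∀ e : sphere (0 : E (m + 1)) 1,
      kakeyaMax δ (fun x => ∏ i, g i (co (A i) x)) e ^ (m + 1) ≤
        ∫⁻ t in Icc (1 / 2 : ℝ) 1, g' (t • (e : E (m + 1))) := by
    intro e
    have he : ‖(e : E (m + 1))‖ = 1 := by simp
    calc kakeyaMax δ (fun x => ∏ i, g i (co (A i) x)) e ^ (m + 1)
        = ∫⁻ _ in Icc (1 / 2 : ℝ) 1,
            2 * kakeyaMax δ (fun x => ∏ i, g i (co (A i) x)) e ^ (m + 1) := by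
          rw [lintegral_const, Measure.restrict_apply_univ, Real.volume_Icc]
          have : ENNReal.ofReal (1 - 1 / 2) = 2⁻¹ := by
            rw [← ENNReal.ofReal_ofNat, ← ENNReal.ofReal_inv_of_pos (by norm_num)]
            norm_num
          rw [this, mul_comm (2 : ℝ≥0∞), mul_assoc, ENNReal.mul_inv_cancel (by norm_num)
            (by norm_num), mul_one]
      _ ≤ _ := by
          apply setLIntegral_mono' measurableSet_Icc
          intro t ht
          simp only [hg']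
          rw [mul_assoc]
          gcongr
          exact pointwise hc0 hvol hd hA hp hpd hg hδ hδ1 he ht
  have hball : ∫⁻ x in closedBall (0 : E (m + 1)) 1, ∏ i, (N i (co (A i) x) ^ d i) ^ p i ≤
      B * ∏ i, (ENNReal.ofReal D * I i) ^ p i := by
    have h1 := hBL (fun i => (box (Fin (d i)) 1).indicator (fun v => N i v ^ d i))
      (fun i => ((hNm i).pow_const _).indicator (measurableSet_box 1))
    calc ∫⁻ x in closedBall (0 : E (m + 1)) 1, ∏ i, (N i (co (A i) x) ^ d i) ^ p i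
        ≤ ∫⁻ x : E (m + 1), ∏ i,
            ((box (Fin (d i)) 1).indicator (fun v => N i v ^ d i) (co (A i) x)) ^ p i := by
          rw [← lintegral_indicator measurableSet_closedBall]
          apply lintegral_mono
          intro x
          beta_reduce
          by_cases hx : x ∈ closedBall (0 : E (m + 1)) 1
          · rw [indicator_of_mem hx]
            rw [mem_closedBall_zero_iff] at hx
            apply le_of_eq
            apply Finset.prod_congr rfl
            intro i _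
            rw [indicator_of_mem (co_mem_box (hA i) hx)]
          · rw [indicator_of_notMem hx]
            exact zero_le
      _ ≤ _ := h1
      _ ≤ _ := by
          gcongr with i _
          · exact (hp i).le
          · rw [lintegral_indicator (measurableSet_box 1)]
            exact hNi i
  have hpow : ∏ i, (ENNReal.ofReal D * I i) ^ p i ≤
      ENNReal.ofReal (D ^ (m + 1)) * ∏ i, I i ^ p i := by
    have h1 : ∀ i, (ENNReal.ofReal D * I i) ^ p i = ENNReal.ofReal (D ^ p i) * I i ^ p i := by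
      intro i
      rw [ENNReal.mul_rpow_of_nonneg _ _ (hp i).le, ENNReal.ofReal_rpow_of_pos (by linarith)]
    simp only [h1]
    rw [Finset.prod_mul_distrib, ← ENNReal.ofReal_prod_of_nonneg (fun i _ => by positivity),
      ← Real.rpow_sum_of_pos (by linarith)]
    gcongr ?_ * _
    apply ENNReal.ofReal_le_ofReal
    rw [← Real.rpow_natCast]
    apply Real.rpow_le_rpow_of_exponent_le hD1
    rw [← hpd]
    apply Finset.sum_le_sum
    intro i _
    have h2 : (1 : ℝ) ≤ d i := by exact_mod_cast hd i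
    have h3 := hp i
    nlinarith
  calc ∫⁻ e : sphere (0 : E (m + 1)) 1,
        kakeyaMax δ (fun x => ∏ i, g i (co (A i) x)) e ^ (m + 1)
          ∂(volume : Measure (E (m + 1))).toSphere
      ≤ ∫⁻ e : sphere (0 : E (m + 1)) 1, (∫⁻ t in Icc (1 / 2 : ℝ) 1, g' (t • (e : E (m + 1))))
          ∂(volume : Measure (E (m + 1))).toSphere := lintegral_mono hhalf
    _ ≤ ENNReal.ofReal (2 ^ m) * ∫⁻ x in closedBall (0 : E (m + 1)) 1, g' x := shell m hgm
    _ = ENNReal.ofReal (2 ^ m) * (2 * ENNReal.ofReal K *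
          ∫⁻ x in closedBall (0 : E (m + 1)) 1, ∏ i, (N i (co (A i) x) ^ d i) ^ p i) := by
        rw [lintegral_const_mul _ hprod]
    _ ≤ ENNReal.ofReal (2 ^ m) * (2 * ENNReal.ofReal K *
          (B * (ENNReal.ofReal (D ^ (m + 1)) * ∏ i, I i ^ p i))) := by
        gcongr
        exact hball.trans (by gcongr)
    _ = ENNReal.ofReal (2 ^ m) * (2 * ENNReal.ofReal K) * ENNReal.ofReal (D ^ (m + 1)) *
          (B * ∏ i, I i ^ p i) := by ring
    _ = _ := by
        congr 1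
        rw [← ENNReal.ofReal_ofNat, ← ENNReal.ofReal_mul (by positivity),
          ← ENNReal.ofReal_mul (by positivity), ← ENNReal.ofReal_mul (by positivity)]
        congr 1
        rw [hD, mul_pow, ← pow_mul]
        ring

end Pool.Agent.Q184.BLK
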