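import Pool.Agent.TH225.CK.H

set_option autoImplicit false

/-!
# Tube averages of functions of few coordinates
-/

open MeasureTheory Set Filter Topology ENNReal NNReal Metric

namespace Pool.Agent.Q184.BLK

open Pool.Agent.TH225.CK

/-- Euclidean space. -/
abbrev E (n : ℕ) : Type := EuclideanSpace ℝ (Fin n)

/-- The coordinates of `x` with respect to the orthonormal vectors `A`. -/
noncomputable def co {n d : ℕ} (A : Fin d → E n) (x : E n) : Fin d → ℝ := fun j => inner ℝ (A j) x

/-- The closed tube of length `1` and radius `δ` with centre `b` and axis direction `e`. -/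
def tube {n : ℕ} (δ : ℝ) (e b : E n) : Set (E n) :=
  {y | |inner ℝ (y - b) e| ≤ 1 / 2 ∧ ‖(y - b) - (inner ℝ (y - b) e : ℝ) • e‖ ≤ δ}

theorem map_bx {ι κ : Type} [Fintype ι] [Fintype κ] {ρ : ℝ} (hρ : 0 < ρ) (σ : κ → ι)
    (hσ : Function.Injective σ) :
    MeasurePreserving (fun x : ι → ℝ => fun j => x (σ j)) (bx ι ρ) (bx κ ρ) := by
  classical
  have hp := un_prob hρ
  refine ⟨by fun_prop, ?_⟩
  unfold bx
  refine (Measure.pi_eq (fun s hs => ?_)).symm
  rw [Measure.map_apply (by fun_prop) (MeasurableSet.univ_pi hs)]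
  have h1 : (fun x : ι → ℝ => fun j => x (σ j)) ⁻¹' (univ.pi s) =
      univ.pi (fun i => if h : ∃ j, σ j = i then s h.choose else univ) := by
    ext x
    simp only [mem_preimage, Set.mem_pi, mem_univ, true_imp_iff]
    constructor
    · intro hx i
      split_ifs with h
      · have := hx h.choose
        rwa [h.choose_spec] at this
      · trivial
    · intro hx j
      have h2 := hx (σ j)
      have hex : ∃ j', σ j' = σ j := ⟨j, rfl⟩
      rw [dif_pos hex] at h2
      have : hex.choose = j := hσ hex.choose_spec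
      rwa [this] at h2
  rw [h1, Measure.pi_pi]
  have h2 : ∀ i, (un ρ) (if h : ∃ j, σ j = i then s h.choose else univ) =
      if h : ∃ j, σ j = i then (un ρ) (s h.choose) else 1 := by
    intro i
    split_ifs with h
    · rfl
    · exact measure_univ
  simp only [h2]
  rw [← Finset.prod_subset (Finset.subset_univ (Finset.univ.image σ))
    (fun i _ hi => by
      have : ¬ ∃ j, σ j = i := by
        rintro ⟨j, rfl⟩
        exact hi (Finset.mem_image_of_mem _ (Finset.mem_univ _))
      rw [dif_neg this])]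
  rw [Finset.prod_image (fun a _ b _ hab => hσ hab)]
  apply Finset.prod_congr rfl
  intro j _
  have hex : ∃ j', σ j' = σ j := ⟨j, rfl⟩
  rw [dif_pos hex]
  have : hex.choose = j := hσ hex.choose_spec
  rw [this]

theorem NN_comp {ι κ : Type} [Fintype ι] [Fintype κ] {ρ : ℝ} (hρ : 0 < ρ) (σ : κ → ι)
    (hσ : Function.Injective σ) {G : (κ → ℝ) → ℝ≥0∞} (hG : Measurable G) (v : ι → ℝ) :
    NN ρ (fun x : ι → ℝ => G (fun j => x (σ j))) v ≤ NN ρ G (fun j => v (σ j)) := by
  unfold NN
  apply iSup_le
  intro q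
  refine le_trans (le_of_eq ?_) (le_iSup (fun q : κ → ℚ => Av ρ G (fun j => v (σ j))
    (fun j => (q j : ℝ))) (fun j => q (σ j)))
  unfold Av
  apply lintegral_congr
  intro t
  have hmp := map_bx hρ σ hσ
  have hm : Measurable (fun w : κ → ℝ =>
      G ((fun j => (q (σ j) : ℝ)) + t • (fun j => v (σ j)) + w)) := by
    apply hG.comp
    fun_prop
  exact hmp.lintegral_comp hm

theorem mem_tube_iff {n : ℕ} (R : E n ≃ₗᵢ[ℝ] E n) (δ : ℝ) (e a z : E n) :
    R z ∈ tube δ e a ↔ z ∈ tube δ (R.symm e) (R.symm a) := by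
  have h1 : R z - a = R (z - R.symm a) := by rw [map_sub, R.apply_symm_apply]
  have h2 : (inner ℝ (R (z - R.symm a)) e : ℝ) = inner ℝ (z - R.symm a) (R.symm e) := by
    conv_lhs => rw [← R.apply_symm_apply e]
    exact R.inner_map_map _ _
  have h3 : ∀ c : ℝ, ‖R (z - R.symm a) - c • e‖ = ‖(z - R.symm a) - c • R.symm e‖ := by
    intro c
    conv_lhs => rw [← R.apply_symm_apply e, ← map_smul, ← map_sub]
    exact R.norm_map _
  simp only [tube, Set.mem_ofPred_eq, h1, h2, h3]

theorem isClosed_tube {n : ℕ} (δ : ℝ) (e a : E n) : IsClosed (tube δ e a) := by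
  have c1 : Continuous (fun y : E n => |(inner ℝ (y - a) e : ℝ)|) := by
    fun_prop
  have c2 : Continuous (fun y : E n =>
    ‖(y - a) - (inner ℝ (y - a) e : ℝ) • e‖) := by fun_prop
  exact (isClosed_le c1 continuous_const).inter (isClosed_le c2 continuous_const)

theorem measurable_co {n d : ℕ} (A : Fin d → E n) : Measurable (co A) := by
  unfold co
  rw [measurable_pi_iff]
  intro j
  exact (continuous_const.inner continuous_id).measurable

/-- The integral over a tube of a function of the coordinates `co A`. -/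
theorem int_tube_co {n d : ℕ} {δ : ℝ} (hδ : 0 < δ) (hδ1 : δ ≤ 1) {e a : E n} (he : ‖e‖ = 1)
    {A : Fin d → E n} (hA : Orthonormal ℝ A)
    {G : (Fin d → ℝ) → ℝ≥0∞} (hG : Measurable G) {t : ℝ} (ht : t ∈ Icc (1 / 2 : ℝ) 1) :
    ∫⁻ y in tube δ e a, G (co A y) ≤
      ENNReal.ofReal (2 * (6 * δ) ^ n / δ) * NN (3 * δ) G (co A (t • e)) := by
  classical
  have hdn : d ≤ n := by
    have := hA.linearIndependent.fintype_card_le_finrank
    simpa using this
  obtain ⟨b, hb⟩ := Orthonormal.exists_orthonormalBasis_extension_of_card_eq (𝕜 := ℝ)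
    (E := E n) (ι := Fin n) (by simp)
    (v := fun i : Fin n => if h : i.val < d then A ⟨i.val, h⟩ else 0)
    (s := {i : Fin n | i.val < d}) (by
      have h1 : ({i : Fin n | i.val < d}.domRestrict
          (fun i : Fin n => if h : i.val < d then A ⟨i.val, h⟩ else 0)) =
          A ∘ (fun i : {i : Fin n | i.val < d} => (⟨i.1.val, i.2⟩ : Fin d)) := by
        funext i
        have hi : i.1.val < d := i.2
        simp [Set.domRestrict, hi]
      rw [h1]
      apply hA.comp
      intro i j hij
      apply Subtype.ext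
      apply Fin.ext
      simpa using hij)
  have hbA : ∀ j : Fin d, b (Fin.castLE hdn j) = A j := by
    intro j
    have h1 : (Fin.castLE hdn j) ∈ {i : Fin n | i.val < d} := by
      simp
    rw [hb _ h1]
    simp
  set Φ : E n ≃ₗᵢ[ℝ] E n := b.repr with hΦ
  set G' : (Fin n → ℝ) → ℝ≥0∞ := fun x => G (fun j => x (Fin.castLE hdn j)) with hG'
  have hG'm : Measurable G' := hG.comp (by fun_prop)
  have hco : ∀ y : E n, G (co A y) = G' (fun i => (Φ y) i) := by
    intro y
    have h1 : co A y = fun j => (Φ y) (Fin.castLE hdn j) := by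
      funext j
      change inner ℝ (A j) y = _
      rw [hΦ, b.repr_apply_apply, hbA]
    rw [h1]
  have hmp : MeasurePreserving Φ.symm := Φ.symm.measurePreserving
  have hcm : Measurable (fun y : E n => G (co A y)) := hG.comp (measurable_co A)
  have h2 : ∫⁻ y in tube δ e a, G (co A y) =
      ∫⁻ z in tube δ (Φ e) (Φ a), G' (fun i => z i) := by
    rw [← lintegral_indicator (isClosed_tube _ _ _).measurableSet,
      ← lintegral_indicator (isClosed_tube _ _ _).measurableSet,
      ← hmp.lintegral_comp (hcm.indicator (isClosed_tube _ _ _).measurableSet)]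
    apply lintegral_congr
    intro z
    have hiff : Φ.symm z ∈ tube δ e a ↔ z ∈ tube δ (Φ e) (Φ a) := mem_tube_iff Φ.symm δ e a z
    by_cases hz : Φ.symm z ∈ tube δ e a
    · rw [indicator_of_mem hz, indicator_of_mem (hiff.1 hz), hco, Φ.apply_symm_apply]
    · rw [indicator_of_notMem hz, indicator_of_notMem (fun h => hz (hiff.2 h))]
  have he' : ‖Φ e‖ = 1 := by rw [Φ.norm_map, he]
  have h3 := int_tube hδ hδ1 (e := Φ e) (a := Φ a) he' hG'm ht
  rw [h2]
  refine h3.trans ?_
  gcongr
  have h4 := NN_comp (ρ := 3 * δ) (by positivity) (Fin.castLE hdn)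
    (Fin.castLE_injective hdn) hG (fun i => (t • Φ e) i)
  refine h4.trans (le_of_eq ?_)
  congr 1
  funext j
  have h5 : (t • Φ e) = Φ (t • e) := (map_smul Φ t e).symm
  rw [h5]
  simp only [co, hΦ, b.repr_apply_apply, hbA]

/-- The coordinates of a vector of the unit ball lie in the cube. -/
theorem co_mem_box {n d : ℕ} {A : Fin d → E n} (hA : Orthonormal ℝ A) {x : E n} (hx : ‖x‖ ≤ 1) :
    co A x ∈ box (Fin d) 1 := by
  intro j _
  apply abs_le.1
  calc |co A x j| ≤ ‖A j‖ * ‖x‖ := abs_real_inner_le_norm _ _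
    _ ≤ 1 * 1 := by
      rw [hA.1 j]
      gcongr
    _ = 1 := one_mul 1

/-- Fubini for products. -/
theorem lintegral_pi_prod {J : Type} [Fintype J] [DecidableEq J] {X : J → Type}
    [∀ j, MeasurableSpace (X j)] (μ : ∀ j, Measure (X j)) [∀ j, SigmaFinite (μ j)]
    (f : ∀ j, X j → ℝ≥0∞) (hf : ∀ j, Measurable (f j)) (x0 : ∀ j, X j) :
    ∫⁻ x, ∏ j, f j (x j) ∂Measure.pi μ = ∏ j, ∫⁻ x, f j x ∂μ j := by
  classical
  have hm : Measurable (fun x : ∀ j, X j => ∏ j, f j (x j)) :=
    Finset.measurable_prod _ fun j _ => (hf j).comp (measurable_pi_apply j)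
  have key : ∀ s : Finset J, ∀ x : ∀ j, X j,
      (∫⋯∫⁻_s, (fun x : ∀ j, X j => ∏ j, f j (x j)) ∂μ) x
        = (∏ j ∈ s, ∫⁻ y, f j y ∂μ j) * ∏ j ∈ sᶜ, f j (x j) := by
    intro s
    induction s using Finset.induction_on with
    | empty => intro x; rw [lmarginal_empty]; simp
    | insert i s hi ih =>
      intro x
      rw [lmarginal_insert _ hm hi]
      simp only [ih]
      have hc : sᶜ = insert i (insert i s)ᶜ := by
        ext j
        by_cases hj : j = i
        · subst hj; simp [hi]
        · simp [hj]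
      have hni : i ∉ (insert i s)ᶜ := by simp
      have h1 : ∀ y : X i, ∏ j ∈ sᶜ, f j (Function.update x i y j)
          = f i y * ∏ j ∈ (insert i s)ᶜ, f j (x j) := by
        intro y
        rw [hc, Finset.prod_insert hni, Function.update_self]
        congr 1
        apply Finset.prod_congr rfl
        intro j hj
        have : j ≠ i := by
          rintro rfl; exact hni hj
        rw [Function.update_of_ne this]
      simp only [h1]
      have h2 : Measurable (fun y : X i => f i y * ∏ j ∈ (insert i s)ᶜ, f j (x j)) :=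
        (hf i).mul_const _
      rw [lintegral_const_mul _ h2, lintegral_mul_const _ (hf i), Finset.prod_insert hi]
      ring
  have := key Finset.univ x0
  rw [lmarginal_univ] at this
  simpa using this

end Pool.Agent.Q184.BLK
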